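import Pool.Agent.K4H70.SC.Loc

/-!
The fundamental cycle of a special cubed manifold and Stokes' theorem.
-/

set_option autoImplicit false
set_option linter.unusedSectionVars false

open scoped Classical

namespace Pool.Agent.K4H70.SC

open Pool.Agent.W907.SG (W cox)
open Pool.Agent.Q134.SV
open Pool.Agent.K4H70.SV

variable {V : Type} [Fintype V] {G : SimpleGraph V}

/-- the face maps of a cycle -/
theorem stokes_face {m : ℕ} {z : (Fin (m + 1) → V) → ℝ} (hz : IsCyc (m + 1) G z)
    (β : (Fin (m + 1) → W G) → ℝ) (j : Fin (m + 1)) :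
    ∑ s : Fin (m + 1) → V, z s * β (xx G s ∘ j.succ.succAbove) = 0 := by
  have e : ∀ v : Fin (m + 1) → V, xx G v ∘ j.succ.succAbove =
      Fin.partialProd (Fin.contractNth j (· * ·) (gen G ∘ v)) :=
    fun v => (Fin.partialProd_contractNth (gen G ∘ v) j).symm
  simp only [e]
  refine Fin.lastCases ?_ (fun k => ?_) j
  · rw [← Equiv.sum_comp (Fin.insertNthEquiv (fun _ : Fin (m + 1) => V) (Fin.last m)),
      Fintype.sum_prod_type, Finset.sum_comm]
    refine Finset.sum_eq_zero fun u _ => ?_
    have : ∀ x : V, z ((Fin.insertNthEquiv (fun _ : Fin (m + 1) => V) (Fin.last m)) (x, u)) *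
        β (Fin.partialProd (Fin.contractNth (Fin.last m) (· * ·)
          (gen G ∘ (Fin.insertNthEquiv (fun _ : Fin (m + 1) => V) (Fin.last m)) (x, u)))) =
        z ((Fin.last m).insertNth (α := fun _ => V) x u) *
          (β (Fin.partialProd (gen G ∘ u))) := by
      intro x
      congr 3
      funext l
      rw [Fin.contractNth_apply_of_lt _ _ _ _ (by simp)]
      simp
    rw [Finset.sum_congr rfl fun x _ => this x, ← Finset.sum_mul, sum_insertNth hz, zero_mul]
  · have hne : k.castSucc ≠ k.succ := (Fin.castSucc_lt_succ).ne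
    set σ := Equiv.swap k.castSucc k.succ with hσ
    have h1 : ∑ v : Fin (m + 1) → V, z v *
        β (Fin.partialProd (Fin.contractNth k.castSucc (· * ·) (gen G ∘ v))) =
        ∑ v : Fin (m + 1) → V, - (z v *
        β (Fin.partialProd (Fin.contractNth k.castSucc (· * ·) (gen G ∘ v)))) := by
      rw [← Equiv.sum_comp (Equiv.arrowCongr σ (Equiv.refl V))]
      refine Finset.sum_congr rfl fun v _ => ?_
      have e1 : (Equiv.arrowCongr σ (Equiv.refl V)) v = v ∘ σ := by
        funext l
        simp [Equiv.arrowCongr, hσ]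
      rw [e1, hz.alt v _ _ hne]
      by_cases h0 : z v = 0
      · rw [h0]; simp
      · have hadj := hz.supp v h0 _ _ hne
        have e2 : Fin.contractNth k.castSucc (· * ·) (gen G ∘ v ∘ σ) =
            Fin.contractNth k.castSucc (· * ·) (gen G ∘ v) := by
          funext l
          rcases lt_trichotomy (l : ℕ) (k : ℕ) with h | h | h
          · rw [Fin.contractNth_apply_of_lt _ _ _ _ (by simpa using h),
              Fin.contractNth_apply_of_lt _ _ _ _ (by simpa using h)]
            simp only [Function.comp_apply, hσ]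
            rw [Equiv.swap_apply_of_ne_of_ne]
            · intro e; rw [Fin.ext_iff] at e; simp at e; omega
            · intro e; rw [Fin.ext_iff] at e; simp at e; omega
          · rw [Fin.contractNth_apply_of_eq _ _ _ _ (by simpa using h),
              Fin.contractNth_apply_of_eq _ _ _ _ (by simpa using h)]
            have : l = k := Fin.ext h
            subst this
            simp only [Function.comp_apply, hσ, Equiv.swap_apply_left, Equiv.swap_apply_right]
            exact (gen_comm G hadj).symm
          · rw [Fin.contractNth_apply_of_gt _ _ _ _ (by simpa using h),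
              Fin.contractNth_apply_of_gt _ _ _ _ (by simpa using h)]
            simp only [Function.comp_apply, hσ]
            rw [Equiv.swap_apply_of_ne_of_ne]
            · intro e; rw [Fin.ext_iff] at e; simp at e; omega
            · intro e; rw [Fin.ext_iff] at e; simp at e; omega
        rw [e2]
        ring
    rw [Finset.sum_neg_distrib] at h1
    linarith

variable (G) in
/-- an orientation -/
structure Ori (n : ℕ) (X : Set (W G)) (H : Subgroup (W G)) (ω : W G → (Fin n → V) → ℝ) :
    Prop where
  cyc : ∀ x, IsCyc n G (ω x)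
  supp : ∀ x s, ω x s ≠ 0 → x ∈ X ∧ ∀ i, s i ∈ lk G X x
  inv : ∀ (h : H) x, ω (h * x) = ω x
  flip : ∀ x s i, ω (x * gen G (s i)) s = - ω x s

variable {X : Set (W G)} {H : Subgroup (W G)}

/-- the pairing of the fundamental cycle with a cochain -/
noncomputable def PP {n : ℕ} (H : Subgroup (W G)) (ω : W G → (Fin n → V) → ℝ)
    (F : (Fin (n + 1) → W G) → ℝ) : ℝ :=
  II H fun x => ∑ s : Fin n → V, ω x s * F fun j => x * xx G s j

lemma Ori.fs {n : ℕ} {ω : W G → (Fin n → V) → ℝ} (hω : Ori G n X H ω)
    (hfin : (rc H '' X).Finite) {f : W G → ℝ} (hf : ∀ x, f x ≠ 0 → ∃ s, ω x s ≠ 0) : Fs H f := by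
  refine hfin.subset (Set.image_mono fun x hx => ?_)
  obtain ⟨s, hs⟩ := hf x hx
  exact (hω.supp x s hs).1

lemma xx_cons_succ {m : ℕ} (u₀ : V) (u : Fin m → V) (j : Fin (m + 1)) :
    xx G (Fin.cons u₀ u : Fin (m + 1) → V) j.succ = gen G u₀ * xx G u j := by
  unfold xx
  rw [Fin.partialProd_succ']
  rfl

theorem PP_cobd {m : ℕ} {ω : W G → (Fin (m + 1) → V) → ℝ} (hω : Ori G (m + 1) X H ω)
    (hfin : (rc H '' X).Finite) {b : (Fin (m + 1) → W G) → ℝ}
    (hb : ∀ (h : H) g, b (fun i => (h : W G) * g i) = b g) : PP H ω (cobd b) = 0 := by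
  have h1 : ∀ x : W G, ∑ s : Fin (m + 1) → V, ω x s * cobd b (fun j => x * xx G s j) =
      ∑ s : Fin (m + 1) → V, ω x s * b (fun j => x * xx G s j.succ) := by
    intro x
    unfold cobd
    simp only [Finset.mul_sum]
    rw [Finset.sum_comm, Fin.sum_univ_succ]
    have h2 : ∀ j : Fin (m + 1), ∑ s : Fin (m + 1) → V, ω x s * ((-1) ^ (j.succ : ℕ) *
        b ((fun j => x * xx G s j) ∘ j.succ.succAbove)) = 0 := by
      intro j
      have h3 := stokes_face (hω.cyc x) (fun g => b fun i => x * g i) j
      calc ∑ s : Fin (m + 1) → V, ω x s * ((-1) ^ (j.succ : ℕ) *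
            b ((fun j => x * xx G s j) ∘ j.succ.succAbove))
          = (-1) ^ (j.succ : ℕ) * ∑ s : Fin (m + 1) → V, ω x s *
            (fun g : Fin (m + 1) → W G => b fun i => x * g i) (xx G s ∘ j.succ.succAbove) := by
            rw [Finset.mul_sum]
            refine Finset.sum_congr rfl fun s _ => ?_
            have : (fun j => x * xx G s j) ∘ j.succ.succAbove =
              fun i => x * (xx G s ∘ j.succ.succAbove) i := rfl
            rw [this]
            ring
        _ = 0 := by rw [h3, mul_zero]
    rw [Finset.sum_congr rfl fun j _ => h2 j, Finset.sum_const_zero, add_zero]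
    refine Finset.sum_congr rfl fun s _ => ?_
    have : (fun j => x * xx G s j) ∘ (0 : Fin (m + 2)).succAbove = fun j => x * xx G s j.succ := by
      funext j
      simp
    rw [this]
    simp
  unfold PP
  rw [II_congr H h1, II_sum]
  · have h2 : ∀ s : Fin (m + 1) → V, II H (fun x => ω x s * b fun j => x * xx G s j.succ) =
        II H (fun y => - (ω y s * b fun j => y * xx G (Fin.tail s) j)) := by
      intro s
      rw [← II_translate (f := fun y => - (ω y s * b fun j => y * xx G (Fin.tail s) j)) ?_
        (gen G (s 0))]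
      · refine II_congr H fun x => ?_
        rw [hω.flip x s 0]
        have : (fun j => x * xx G s j.succ) =
            fun j => x * gen G (s 0) * xx G (Fin.tail s) j := by
          funext j
          conv_lhs => rw [← Fin.cons_self_tail s]
          rw [xx_cons_succ, mul_assoc]
        rw [this]
        ring
      · intro h x
        simp only
        rw [hω.inv]
        congr 2
        rw [← hb h fun j => x * xx G (Fin.tail s) j]
        congr 1
        funext j
        rw [mul_assoc]
    rw [Finset.sum_congr rfl fun s _ => h2 s, ← II_sum]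
    · refine II_zero H fun y => ?_
      rw [Finset.sum_neg_distrib, neg_eq_zero,
        ← Equiv.sum_comp (Fin.insertNthEquiv (fun _ : Fin (m + 1) => V) 0),
        Fintype.sum_prod_type, Finset.sum_comm]
      refine Finset.sum_eq_zero fun u _ => ?_
      have h3 : ∀ u₀ : V, ω y ((Fin.insertNthEquiv (fun _ : Fin (m + 1) => V) 0) (u₀, u)) *
          (b fun j => y * xx G (Fin.tail ((Fin.insertNthEquiv (fun _ : Fin (m + 1) => V) 0)
            (u₀, u))) j) =
          ω y ((0 : Fin (m + 1)).insertNth (α := fun _ => V) u₀ u) *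
            (b fun j => y * xx G u j) := by
        intro u₀
        congr 2
      rw [Finset.sum_congr rfl fun u₀ _ => h3 u₀, ← Finset.sum_mul, sum_insertNth (hω.cyc y),
        zero_mul]
    · intro s
      refine hω.fs hfin fun x hx => ⟨s, fun h0 => hx ?_⟩
      rw [h0, zero_mul, neg_zero]
  · intro s
    refine hω.fs hfin fun x hx => ⟨s, fun h0 => hx ?_⟩
    rw [h0, zero_mul]

end Pool.Agent.K4H70.SC
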