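import Pool.Agent.Q134.SV.Coc

/-!
Invariant cochains of a group under a subgroup, and sums over the right cosets.
-/

set_option autoImplicit false

open scoped Classical

namespace Pool.Agent.K4H70.SC

open Pool.Agent.Q134.SV

variable {Γ : Type} [Group Γ]

/-- an invariant cocycle of a group whose restriction to the subgroup is a coboundary is a
coboundary of an invariant cochain -/
theorem transfer0 {n : ℕ} (H : Subgroup Γ) (c : (Fin (n + 1) → Γ) → ℝ)
    (hcH : ∀ (h : H) (g : Fin (n + 1) → Γ), c (fun i => (h : Γ) * g i) = c g)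
    (hd : ∀ g : Fin (n + 2) → Γ, cobd c g = 0)
    (b : (Fin n → H) → ℝ) (hb : ∀ (h : H) g, b (fun i => h * g i) = b g)
    (hbc : ∀ g : Fin (n + 1) → H, cobd b g = c (fun i => (g i : Γ))) :
    ∃ b' : (Fin n → Γ) → ℝ, (∀ (h : H) g, b' (fun i => (h : Γ) * g i) = b' g) ∧
      ∀ g : Fin (n + 1) → Γ, cobd b' g = c g := by
  let r : Γ → Γ := fun x => (toSub H x : Γ)
  let b1 : (Fin n → Γ) → ℝ := fun g => b (fun i => toSub H (g i)) - pri r n c g
  have hb1 : ∀ (h : H) (g : Fin n → Γ), b1 (fun i => (h : Γ) * g i) = b1 g := by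
    intro h g
    have e1 : b (fun i => toSub H ((h : Γ) * g i)) = b (fun i => toSub H (g i)) := by
      simp only [toSub_mul]
      exact hb h _
    have e2 : pri r n c ((fun x => (h : Γ) * x) ∘ g) = pri r n c g := by
      refine pri_equiv r _ ?_ n c c ?_ g
      · intro x
        simp only [r, toSub_mul, Subgroup.coe_mul]
      · intro g'
        exact hcH h g'
    change b (fun i => toSub H ((h : Γ) * g i)) - pri r n c ((fun x => (h : Γ) * x) ∘ g) = _
    rw [e1, e2]
  have hd1 : ∀ g : Fin (n + 1) → Γ, cobd b1 g = c g := by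
    intro g
    have e1 : cobd b1 g = cobd (fun g' : Fin n → Γ => b (toSub H ∘ g')) g - cobd (pri r n c) g := by
      exact cobd_sub _ _ _
    rw [e1, cobd_comp b (toSub H) g, hbc]
    have e2 := prism r n c g
    have e3 : pri r (n + 1) (cobd c) g = 0 := by
      have : cobd c = fun _ => 0 := funext hd
      rw [this]
      exact pri_zero r (n + 1) g
    rw [e3, add_zero] at e2
    rw [e2]
    have e4 : c (fun i => ((toSub H ∘ g) i : Γ)) = c (r ∘ g) := rfl
    rw [e4]
    ring
  exact ⟨b1, hb1, hd1⟩

/-- the right cosets -/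
abbrev RC (H : Subgroup Γ) : Type := Quotient (QuotientGroup.rightRel H)

/-- the right coset -/
def rc (H : Subgroup Γ) (x : Γ) : RC H := Quotient.mk (QuotientGroup.rightRel H) x

lemma rc_eq {H : Subgroup Γ} {x y : Γ} : rc H x = rc H y ↔ ∃ h : H, y = h * x := by
  unfold rc
  rw [Quotient.eq, QuotientGroup.rightRel_apply]
  constructor
  · intro h
    exact ⟨⟨_, h⟩, by group⟩
  · rintro ⟨h, rfl⟩
    have : (h : Γ) * x * x⁻¹ = h := by group
    rw [this]
    exact h.2

lemma rc_out {H : Subgroup Γ} (q : RC H) : rc H q.out = q := Quotient.out_eq q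

/-- invariant functions -/
def Inv (H : Subgroup Γ) (f : Γ → ℝ) : Prop := ∀ (h : H) x, f (h * x) = f x

lemma Inv.out {H : Subgroup Γ} {f : Γ → ℝ} (hf : Inv H f) (x : Γ) : f (rc H x).out = f x := by
  obtain ⟨h, e⟩ := rc_eq.1 (rc_out (rc H x))
  have h1 := hf h (rc H x).out
  rw [← e] at h1
  exact h1.symm

/-- the sum over the right cosets -/
noncomputable def II (H : Subgroup Γ) (f : Γ → ℝ) : ℝ := ∑ᶠ q : RC H, f q.out

/-- the support modulo the subgroup is finite -/
def Fs (H : Subgroup Γ) (f : Γ → ℝ) : Prop := (rc H '' Function.support f).Finite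

lemma Fs.out {H : Subgroup Γ} {f : Γ → ℝ} (hf : Fs H f) :
    (Function.support fun q : RC H => f q.out).Finite := by
  refine hf.subset fun q hq => ⟨q.out, hq, rc_out q⟩

lemma Fs.mono {H : Subgroup Γ} {f g : Γ → ℝ} (hf : Fs H f) (h : ∀ x, g x ≠ 0 → f x ≠ 0) :
    Fs H g := hf.subset (Set.image_mono fun x hx => h x hx)

/-- right translations are the permutations of the right cosets -/
def tr (H : Subgroup Γ) (g : Γ) : RC H ≃ RC H where
  toFun := Quotient.map (fun x => x * g) fun x y h => by
    change (QuotientGroup.rightRel H) _ _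
    have h' : (QuotientGroup.rightRel H) x y := h
    rw [QuotientGroup.rightRel_apply] at h' ⊢
    have : y * g * (x * g)⁻¹ = y * x⁻¹ := by group
    rwa [this]
  invFun := Quotient.map (fun x => x * g⁻¹) fun x y h => by
    change (QuotientGroup.rightRel H) _ _
    have h' : (QuotientGroup.rightRel H) x y := h
    rw [QuotientGroup.rightRel_apply] at h' ⊢
    have : y * g⁻¹ * (x * g⁻¹)⁻¹ = y * x⁻¹ := by group
    rwa [this]
  left_inv := by
    intro q
    induction q using Quotient.inductionOn with
    | h x =>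
      rw [Quotient.map_mk, Quotient.map_mk]
      congr 1
      group
  right_inv := by
    intro q
    induction q using Quotient.inductionOn with
    | h x =>
      rw [Quotient.map_mk, Quotient.map_mk]
      congr 1
      group

lemma tr_rc (H : Subgroup Γ) (g x : Γ) : tr H g (rc H x) = rc H (x * g) := rfl

lemma II_translate {H : Subgroup Γ} {f : Γ → ℝ} (hf : Inv H f) (g : Γ) :
    II H (fun x => f (x * g)) = II H f := by
  have h1 : ∀ q : RC H, f (tr H g q).out = f (q.out * g) := by
    intro q
    have h2 : tr H g q = rc H (q.out * g) := by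
      conv_lhs => rw [← rc_out q]
      rfl
    rw [h2, hf.out]
  unfold II
  rw [← finsum_comp_equiv (tr H g) (f := fun q : RC H => f q.out)]
  simp only [h1]

lemma II_sum {H : Subgroup Γ} {ι : Type} [Fintype ι] (f : ι → Γ → ℝ) (hf : ∀ i, Fs H (f i)) :
    II H (fun x => ∑ i, f i x) = ∑ i, II H (f i) := by
  unfold II
  rw [finsum_sum_comm]
  intro i _
  exact (hf i).out

lemma II_zero (H : Subgroup Γ) {f : Γ → ℝ} (hf : ∀ x, f x = 0) : II H f = 0 := by
  unfold II
  simp [hf]

lemma II_congr (H : Subgroup Γ) {f g : Γ → ℝ} (hf : ∀ x, f x = g x) : II H f = II H g := by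
  rw [show f = g from funext hf]

lemma II_smul (H : Subgroup Γ) (a : ℝ) (f : Γ → ℝ) :
    II H (fun x => a * f x) = a * II H f := by
  unfold II
  rw [← smul_eq_mul, smul_finsum]
  rfl

/-- the decomposition of the group into right cosets -/
noncomputable def dec (H : Subgroup Γ) : RC H × H ≃ Γ :=
  Equiv.ofBijective (fun p => (p.2 : Γ)⁻¹ * p.1.out) (by
    constructor
    · rintro ⟨q, h⟩ ⟨q', h'⟩ e
      simp only at e
      have h1 : q = q' := by
        rw [← rc_out q, ← rc_out q']
        refine rc_eq.2 ⟨h' * h⁻¹, ?_⟩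
        have := congrArg (fun y => (h' : Γ) * y) e
        simp only [mul_inv_cancel_left] at this
        rw [← this]
        simp only [Subgroup.coe_mul, Subgroup.coe_inv]
        group
      subst h1
      have h2 := mul_right_cancel e
      rw [inv_inj] at h2
      rw [Subtype.ext h2]
    · intro x
      obtain ⟨h, e⟩ := rc_eq.1 (rc_out (rc H x))
      refine ⟨(rc H x, h⁻¹), ?_⟩
      simp only [Subgroup.coe_inv, inv_inv]
      exact e.symm)

lemma dec_apply (H : Subgroup Γ) (q : RC H) (h : H) : dec H (q, h) = (h : Γ)⁻¹ * q.out := rfl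

/-- unfolding -/
lemma II_unfold {H : Subgroup Γ} {F : Γ → ℝ} (hF : (Function.support F).Finite) :
    II H (fun x => ∑ᶠ h : H, F ((h : Γ)⁻¹ * x)) = ∑ᶠ x, F x := by
  unfold II
  rw [← finsum_comp_equiv (dec H), finsum_curry]
  · rfl
  · exact hF.preimage ((dec H).injective.injOn)

end Pool.Agent.K4H70.SC
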