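import Pool.Agent.K4H70.SV.Crit
import Pool.Agent.K4H70.SC.Coset

/-!
Convex subcomplexes of the Davis complex of a right-angled Coxeter group.
-/

set_option autoImplicit false
set_option linter.unusedSectionVars false

open scoped Classical

namespace Pool.Agent.K4H70.SC

open Pool.Agent.W907.SG (W cox)
open Pool.Agent.Q134.SV
open Pool.Agent.K4H70.SV

variable {V : Type} (G : SimpleGraph V)

/-- `X` is a convex set of vertices of the Davis complex: it contains each `z` which lies on a
geodesic between two of its elements (in the Cayley graph of `W G`; `length` is the word length). -/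
def Convex (X : Set (W G)) : Prop :=
  ∀ x ∈ X, ∀ y ∈ X, ∀ z, (cox G).toCoxeterSystem.length (x⁻¹ * z) +
    (cox G).toCoxeterSystem.length (z⁻¹ * y) = (cox G).toCoxeterSystem.length (x⁻¹ * y) → z ∈ X

/-- the link of `x` in `X`: the generators `s` such that the edge from `x` to `x s` is in `X` -/
def lk (X : Set (W G)) (x : W G) : Set V := {s | x * gen G s ∈ X}

variable {G}

lemma mem_lk {X : Set (W G)} {x : W G} {s : V} : s ∈ lk G X x ↔ x * gen G s ∈ X := Iff.rfl

variable [Fintype V]

lemma length_D {w : W G} {s : V} (h : s ∈ D G w) :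
    (cs G).length (gen G s * w) + 1 = (cs G).length w := by
  rw [mem_D] at h
  have h1 : (cs G).IsRightDescent w⁻¹ s := by
    by_contra h2
    exact not_both G ((tits G _ w⁻¹ rfl).1 s h2) h
  rw [(cs G).isRightDescent_inv_iff] at h1
  exact (cs G).isLeftDescent_iff.1 h1

lemma length_gen (s : V) : (cs G).length (gen G s) = 1 := (cs G).length_simple s

/-- a convex set contains the first edges of the geodesics -/
lemma Convex.step {X : Set (W G)} (hX : Convex G X) {x y : W G} (hx : x ∈ X) (hy : y ∈ X) {s : V}
    (hs : s ∈ D G (x⁻¹ * y)) : s ∈ lk G X x := by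
  refine hX x hx y hy _ ?_
  have h1 := length_D hs
  have h2 : x⁻¹ * (x * gen G s) = gen G s := by group
  have h3 : (x * gen G s)⁻¹ * y = gen G s * (x⁻¹ * y) := by rw [mul_inv_rev, gen_inv]; group
  rw [h2, h3]
  have h4 : (cox G).toCoxeterSystem.length (gen G s) = 1 := length_gen s
  rw [h4]
  have h5 : (cox G).toCoxeterSystem.length (gen G s * (x⁻¹ * y)) + 1 =
    (cox G).toCoxeterSystem.length (x⁻¹ * y) := h1
  omega

lemma mem_D_gen_mul {s t : V} (h : G.Adj s t) : t ∈ D G (gen G s * gen G t) := by
  rw [mem_D, mul_inv_rev, gen_inv, gen_inv, rep_mul, rep_gen, rep_gen, rf_adj G h, rf_self]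
  exact neg_nonpos.2 (ee_nonneg t)

lemma Convex.square {X : Set (W G)} (hX : Convex G X) {x : W G} {s t : V} (hs : s ∈ lk G X x)
    (ht : t ∈ lk G X x) (h : G.Adj s t) : t ∈ lk G X (x * gen G s) := by
  refine hX.step (x := x * gen G s) (y := x * gen G t) hs ht ?_
  have : (x * gen G s)⁻¹ * (x * gen G t) = gen G s * gen G t := by
    rw [mul_inv_rev, gen_inv]; group
  rw [this]
  exact mem_D_gen_mul h

/-- a convex set contains the cubes spanned by its edges -/
lemma Convex.cube {X : Set (W G)} (hX : Convex G X) : ∀ {n : ℕ} {x : W G} (_ : x ∈ X)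
    {s : Fin n → V} (_ : ∀ i j, i ≠ j → G.Adj (s i) (s j)) (_ : ∀ i, s i ∈ lk G X x)
    (j : Fin (n + 1)), x * xx G s j ∈ X
  | 0, x, hx, s, _, _, j => by
    have : j = 0 := Subsingleton.elim (α := Fin 1) _ _
    rw [this, xx_zero, mul_one]
    exact hx
  | n + 1, x, hx, s, hs, hl, j => by
    refine Fin.cases ?_ (fun k => ?_) j
    · rw [xx_zero, mul_one]
      exact hx
    · have h1 := hX.cube (x := x * gen G (s 0)) (hl 0) (s := fun i => s i.succ)
        (fun i j hij => hs _ _ fun e => hij (Fin.succ_injective _ e))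
        (fun i => hX.square (hl 0) (hl i.succ) (hs _ _ (Fin.succ_ne_zero i).symm)) k
      have h2 : xx G s k.succ = gen G (s 0) * xx G (fun i => s i.succ) k := by
        unfold xx
        rw [Fin.partialProd_succ']
        rfl
      rw [h2, ← mul_assoc]
      exact h1

end Pool.Agent.K4H70.SC
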