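import Pool.Agent.K4H70.SC.Conv

/-!
The bounded cocycle of a local term.
-/

set_option autoImplicit false
set_option linter.unusedSectionVars false

open scoped Classical

namespace Pool.Agent.K4H70.SC

open Pool.Agent.W907.SG (W cox)
open Pool.Agent.Q134.SV
open Pool.Agent.K4H70.SV

variable {V : Type} [Fintype V] [LinearOrder V] {G : SimpleGraph V}

variable (G) in
/-- local terms which vanish on the aligned families -/
def Van (L : Set V) {n : ℕ} (θ : (Fin n → Finset V) → ℝ) : Prop :=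
  ∀ σ : Fin (n + 1) → Finset V, (∀ i, (σ i).Nonempty) → (∀ i, ∀ x ∈ σ i, x ∈ L) →
    Ali G (Set.range σ) → cobd θ σ = 0

variable (G) in
/-- the local term -/
noncomputable def TT {n : ℕ} (θ : (Fin n → Finset V) → ℝ) (v : W G) (x : Fin (n + 1) → W G) : ℝ :=
  cobd θ fun i => D G (v⁻¹ * x i)

lemma TT_mul {n : ℕ} (θ : (Fin n → Finset V) → ℝ) (v : W G) (x : Fin (n + 1) → W G) (h : W G) :
    TT G θ (h * v) (fun i => h * x i) = TT G θ v x := by
  unfold TT
  congr 1
  funext i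
  congr 1
  group

lemma TT_mul' {n : ℕ} (θ : (Fin n → Finset V) → ℝ) (v : W G) (x : Fin (n + 1) → W G) (h : W G) :
    TT G θ (h * v) x = TT G θ v (fun i => h⁻¹ * x i) := by
  unfold TT
  congr 1
  funext i
  congr 1
  group

/-- the sum over the orbit -/
noncomputable def cX (H : Subgroup (W G)) {n : ℕ} (θ : (Fin n → Finset V) → ℝ) (v : W G)
    (x : Fin (n + 1) → W G) : ℝ := ∑ᶠ h : H, TT G θ (h * v) x

section

variable {X : Set (W G)} (hX : Convex G X) {H : Subgroup (W G)}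
  (hH : ∀ (h : H), ∀ x ∈ X, (h : W G) * x ∈ X)

include hH in
lemma lk_mul (h : H) (v : W G) : lk G X (h * v) = lk G X v := by
  ext s
  rw [mem_lk, mem_lk]
  constructor
  · intro h1
    have := hH h⁻¹ _ h1
    rwa [Subgroup.coe_inv, mul_assoc, inv_mul_cancel_left] at this
  · intro h1
    rw [mul_assoc]
    exact hH h _ h1

include hX hH

variable {v : W G} (hv : v ∈ X) {n : ℕ} {θ : (Fin n → Finset V) → ℝ} (hθ : Van G (lk G X v) θ)

include hv in
lemma D_sub {x : W G} (hx : x ∈ X) (h : H) {s : V} (hs : s ∈ D G (((h : W G) * v)⁻¹ * x)) :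
    s ∈ lk G X v := by
  rw [← lk_mul hH h v]
  exact hX.step (hH h v hv) hx hs

include hv hθ

lemma TT_inj {x : Fin (n + 1) → W G} (hx : ∀ i, x i ∈ X) :
    Set.InjOn (fun (h : H) (i : Fin (n + 1)) => D G (((h : W G) * v)⁻¹ * x i))
      (Function.support fun h : H => TT G θ (h * v) x) := by
  intro h hh h' _ hhh
  by_contra hne
  apply hh
  have hg : ((h : W G) * v)⁻¹ * ((h' : W G) * v) ≠ 1 := fun e => hne (by
    rw [inv_mul_eq_one] at e
    exact Subtype.ext (mul_right_cancel e))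
  obtain ⟨h1, h2⟩ := data_ali (h := fun i => ((h : W G) * v)⁻¹ * x i)
    (h' := fun i => ((h' : W G) * v)⁻¹ * x i) hg (fun i => by group) (fun i => congrFun hhh i)
  exact hθ _ h1 (fun i s hs => D_sub hX hH hv (hx i) h hs) h2

lemma TT_fin {x : Fin (n + 1) → W G} (hx : ∀ i, x i ∈ X) :
    (Function.support fun h : H => TT G θ (h * v) x).Finite :=
  Set.Finite.of_finite_image (Set.toFinite _) (TT_inj hX hH hv hθ hx)

lemma cX_bdd : ∃ C : ℝ, ∀ x : Fin (n + 1) → W G, (∀ i, x i ∈ X) → |cX H θ v x| ≤ C := by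
  obtain ⟨M, hM⟩ : ∃ M : ℝ, ∀ σ : Fin (n + 1) → Finset V, |cobd θ σ| ≤ M :=
    ⟨∑ σ : Fin (n + 1) → Finset V, |cobd θ σ|, fun σ =>
      Finset.single_le_sum (f := fun σ => |cobd θ σ|) (fun _ _ => abs_nonneg _)
        (Finset.mem_univ σ)⟩
  have hM0 : 0 ≤ M := (abs_nonneg _).trans (hM fun _ => ∅)
  refine ⟨Fintype.card (Fin (n + 1) → Finset V) * M, fun x hx => ?_⟩
  have h1 : cX H θ v x = ∑ h ∈ (TT_fin hX hH hv hθ hx).toFinset, TT G θ (h * v) x := by
    unfold cX
    refine finsum_eq_sum_of_support_subset _ ?_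
    rw [Set.Finite.coe_toFinset]
  rw [h1]
  calc |∑ h ∈ (TT_fin hX hH hv hθ hx).toFinset, TT G θ (h * v) x|
      ≤ ∑ h ∈ (TT_fin hX hH hv hθ hx).toFinset, |TT G θ (h * v) x| := Finset.abs_sum_le_sum_abs _ _
    _ ≤ ∑ h ∈ (TT_fin hX hH hv hθ hx).toFinset, M := Finset.sum_le_sum fun h _ => hM _
    _ = ((TT_fin hX hH hv hθ hx).toFinset.card : ℝ) * M := by rw [Finset.sum_const, nsmul_eq_mul]
    _ ≤ Fintype.card (Fin (n + 1) → Finset V) * M := by
        refine mul_le_mul_of_nonneg_right ?_ hM0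
        rw [Nat.cast_le]
        refine Finset.card_le_card_of_injOn
          (fun (h : H) (i : Fin (n + 1)) => D G (((h : W G) * v)⁻¹ * x i))
          (fun _ _ => Finset.mem_univ _) ?_
        rw [Set.Finite.coe_toFinset]
        exact TT_inj hX hH hv hθ hx

lemma cX_coc {x : Fin (n + 2) → W G} (hx : ∀ i, x i ∈ X) : cobd (cX H θ v) x = 0 := by
  have h1 : ∀ i : Fin (n + 2), (-1 : ℝ) ^ (i : ℕ) * cX H θ v (x ∘ i.succAbove) =
      ∑ᶠ h : H, (-1 : ℝ) ^ (i : ℕ) * TT G θ (h * v) (x ∘ i.succAbove) := by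
    intro i
    unfold cX
    exact mul_finsum _ _
  unfold cobd
  rw [Finset.sum_congr rfl fun i _ => h1 i, ← finsum_sum_comm]
  · rw [← finsum_zero (α := H)]
    congr 1
    funext h
    exact cobd_cobd θ fun i => D G (((h : W G) * v)⁻¹ * x i)
  · intro i _
    refine (TT_fin hX hH hv hθ (x := x ∘ i.succAbove) fun j => hx _).subset fun h hh => ?_
    intro h0
    apply hh
    simp only at h0 ⊢
    rw [h0, mul_zero]

end

lemma cX_inv (H : Subgroup (W G)) {n : ℕ} (θ : (Fin n → Finset V) → ℝ) (v : W G)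
    (x : Fin (n + 1) → W G) (g : H) : cX H θ v (fun i => g * x i) = cX H θ v x := by
  unfold cX
  rw [← finsum_comp_equiv (Equiv.mulLeft g)]
  congr 1
  funext h
  have : (((Equiv.mulLeft g) h : H) : W G) * v = g * (h * v) := by
    simp [mul_assoc]
  rw [this]
  exact TT_mul θ _ x g

section

variable (X : Set (W G)) (H : Subgroup (W G)) (v : W G)

/-- a retraction onto `X` -/
noncomputable def RR (x : W G) : W G := if x ∈ X then x else toSub H x * v

variable {X H v}

lemma RR_id {x : W G} (h : x ∈ X) : RR X H v x = x := if_pos h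

variable (hH : ∀ (h : H), ∀ x ∈ X, (h : W G) * x ∈ X)

include hH

lemma RR_mem (hv : v ∈ X) (x : W G) : RR X H v x ∈ X := by
  unfold RR
  split_ifs with h
  · exact h
  · exact hH _ v hv

lemma RR_mul (h : H) (x : W G) : RR X H v (h * x) = h * RR X H v x := by
  have h1 : (h : W G) * x ∈ X ↔ x ∈ X := by
    constructor
    · intro h1
      have := hH h⁻¹ _ h1
      rwa [Subgroup.coe_inv, inv_mul_cancel_left] at this
    · exact hH h x
  unfold RR
  by_cases h2 : x ∈ X
  · rw [if_pos h2, if_pos (h1.2 h2)]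
  · rw [if_neg h2, if_neg fun h3 => h2 (h1.1 h3), toSub_mul, Subgroup.coe_mul, mul_assoc]

end

/-- the cocycle on the group -/
noncomputable def cT (X : Set (W G)) (H : Subgroup (W G)) {n : ℕ} (θ : (Fin n → Finset V) → ℝ)
    (v : W G) (x : Fin (n + 1) → W G) : ℝ := cX H θ v (RR X H v ∘ x)

section

variable {X : Set (W G)} (hX : Convex G X) {H : Subgroup (W G)}
  (hH : ∀ (h : H), ∀ x ∈ X, (h : W G) * x ∈ X)
  {v : W G} (hv : v ∈ X) {n : ℕ} {θ : (Fin n → Finset V) → ℝ} (hθ : Van G (lk G X v) θ)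

include hH in
lemma cT_inv (g : H) (x : Fin (n + 1) → W G) : cT X H θ v (fun i => g * x i) = cT X H θ v x := by
  unfold cT
  rw [← cX_inv H θ v (RR X H v ∘ x) g]
  congr 1
  funext i
  exact RR_mul hH g (x i)

include hX hH hv hθ

lemma cT_coc (x : Fin (n + 2) → W G) : cobd (cT X H θ v) x = 0 :=
  cX_coc hX hH hv hθ (x := RR X H v ∘ x) fun _ => RR_mem hH hv _

lemma cT_bdd : ∃ C : ℝ, ∀ x : Fin (n + 1) → W G, |cT X H θ v x| ≤ C := by
  obtain ⟨C, hC⟩ := cX_bdd hX hH hv hθ
  exact ⟨C, fun x => hC _ fun i => RR_mem hH hv _⟩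

/-- if all bounded cocycles are coboundaries, then the cocycle is the coboundary of an invariant
cochain -/
theorem cT_cobd (hz : ZeroSV n H) : ∃ b : (Fin n → W G) → ℝ,
    (∀ (h : H) g, b (fun i => (h : W G) * g i) = b g) ∧
      ∀ g : Fin (n + 1) → W G, cobd b g = cT X H θ v g := by
  obtain ⟨b, hb, hbc⟩ := hz (fun g => cT X H θ v fun i => (g i : W G)) (fun h g => by
      simp only [Subgroup.coe_mul]
      exact cT_inv hH h _)
    (fun g => cT_coc hX hH hv hθ fun i => (g i : W G)) (by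
      obtain ⟨C, hC⟩ := cT_bdd hX hH hv hθ
      exact ⟨C, fun g => hC _⟩)
  exact transfer0 H (cT X H θ v) (fun h g => cT_inv hH h g) (cT_coc hX hH hv hθ) b hb hbc

end

end Pool.Agent.K4H70.SC
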