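import Pool.Agent.K4H70.SC.Val
import Pool.Agent.K4H70.SV.Euler

/-!
The main theorem for special cubed manifolds.
-/

set_option autoImplicit false
set_option linter.unusedSectionVars false

open scoped Classical

namespace Pool.Agent.K4H70.SC

open Pool.Agent.W907.SG (W cox chiW)
open Pool.Agent.Q134.SV
open Pool.Agent.K4H70.SV

/-- cochains of labels for a homology sphere with nonvanishing Euler characteristic -/
theorem exists_labels {V : Type} [Fintype V] {G : SimpleGraph V} {n : ℕ} (hn : HSphere n G)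
    (hχ : chiW G ≠ 0) {z : (Fin n → V) → ℝ} (hz : LCycle G ∅ z) (hz0 : z ≠ 0) :
    ∃ a : (Fin n → V ⊕ V × V) → ℝ, Alt a ∧ (∀ v, GT G v → cobd a v = 0) ∧
      ∑ s, z s * a (Sum.inl ∘ s) ≠ 0 := by
  by_contra hcon
  push Not at hcon
  apply hχ
  have h1 : ∀ a : (Fin n → V ⊕ V × V) → ℝ, Alt a → (∀ v, GT G v → cobd a v = 0) →
      ∑ v, zh z v * a v = 0 := by
    intro a ha hc
    have h2 := sum_zh z a
    simp only [smul_eq_mul] at h2
    rw [h2]
    exact hcon a ha hc
  obtain ⟨B, hB, hB', hzB⟩ := dual2 (A := GT G) (fun v i j h => (GT.swap i j).2 h)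
    (zh_alt hz.alt') h1
  exact chiW_zero_of_boundary hn hz hz0 hB hB' hzB

section Up

variable {V : Type} {G : SimpleGraph V} (L : Set V)

/-- the labels of a full subgraph -/
def up : L ⊕ L × L → V ⊕ V × V
  | Sum.inl x => Sum.inl x
  | Sum.inr p => Sum.inr (p.1, p.2)

lemma up_inj : Function.Injective (up L) := by
  rintro (x | p) (y | q) h
  · simp only [up, Sum.inl.injEq] at h
    rw [Subtype.ext h]
  · simp [up] at h
  · simp [up] at h
  · simp only [up, Sum.inr.injEq, Prod.mk.injEq] at h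
    rw [Sum.inr.injEq]
    exact Prod.ext (Subtype.ext h.1) (Subtype.ext h.2)

lemma Lb_iff {l : V ⊕ V × V} : Lb L l ↔ ∃ l', up L l' = l := by
  constructor
  · intro h
    rcases l with x | p
    · exact ⟨Sum.inl ⟨x, h⟩, rfl⟩
    · exact ⟨Sum.inr (⟨p.1, h.1⟩, ⟨p.2, h.2⟩), rfl⟩
  · rintro ⟨l', rfl⟩
    rcases l' with x | p
    · exact x.2
    · exact ⟨p.1.2, p.2.2⟩

lemma Va_up {l : L ⊕ L × L} (h : Va G (up L l)) : Va (G.induce L) l := by
  rcases l with x | p
  · exact trivial
  · exact ⟨fun e => h.1 (by simp [e]), fun e => h.2 e⟩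

lemma LA_up {l l' : L ⊕ L × L} (h : LA G (up L l) (up L l')) : LA (G.induce L) l l' := by
  rcases l with x | p <;> rcases l' with y | q
  · exact h
  · rcases h with h | h | h
    · exact Or.inl (Subtype.ext h)
    · exact Or.inr (Or.inl (Subtype.ext h))
    · exact Or.inr (Or.inr h)
  · rcases h with h | h | h
    · exact Or.inl (Subtype.ext h)
    · exact Or.inr (Or.inl (Subtype.ext h))
    · exact Or.inr (Or.inr h)
  · exact h

lemma GT_up {m : ℕ} {s : Fin m → L ⊕ L × L} (h : GT G (up L ∘ s)) : GT (G.induce L) s :=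
  ⟨fun i => Va_up L (h.1 i), fun i j hij => LA_up L (h.2 i j hij)⟩

/-- the extension by zero of a cochain of labels -/
noncomputable def ex {n : ℕ} (a : (Fin n → L ⊕ L × L) → ℝ) (t : Fin n → V ⊕ V × V) : ℝ :=
  if h : ∃ t', up L ∘ t' = t then a h.choose else 0

lemma ex_up {n : ℕ} (a : (Fin n → L ⊕ L × L) → ℝ) (t : Fin n → L ⊕ L × L) :
    ex L a (up L ∘ t) = a t := by
  have h : ∃ t', up L ∘ t' = up L ∘ t := ⟨t, rfl⟩
  unfold ex
  rw [dif_pos h]
  congr 1
  exact (up_inj L).comp_left h.choose_spec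

lemma ex_alt {n : ℕ} {a : (Fin n → L ⊕ L × L) → ℝ} (ha : Alt a) : Alt (ex L a) := by
  intro t i j hij
  by_cases h : ∃ t', up L ∘ t' = t
  · obtain ⟨t', rfl⟩ := h
    have : (up L ∘ t') ∘ Equiv.swap i j = up L ∘ (t' ∘ Equiv.swap i j) := rfl
    rw [this, ex_up, ex_up, ha t' i j hij]
  · have h' : ¬ ∃ t', up L ∘ t' = t ∘ Equiv.swap i j := by
      rintro ⟨t', e⟩
      refine h ⟨t' ∘ Equiv.swap i j, ?_⟩
      rw [← Function.comp_assoc, e]
      funext k
      simp
    unfold ex
    rw [dif_neg h, dif_neg h', neg_zero]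

lemma ex_closed {n : ℕ} {a : (Fin n → L ⊕ L × L) → ℝ}
    (hc : ∀ s, GT (G.induce L) s → cobd a s = 0) {s : Fin (n + 1) → V ⊕ V × V} (h1 : GT G s)
    (h2 : ∀ i, Lb L (s i)) : cobd (ex L a) s = 0 := by
  choose s' hs' using fun i => (Lb_iff L).1 (h2 i)
  obtain rfl : up L ∘ s' = s := funext hs'
  rw [← hc s' (GT_up L h1)]
  unfold cobd
  refine Finset.sum_congr rfl fun i _ => ?_
  have : (up L ∘ s') ∘ i.succAbove = up L ∘ (s' ∘ i.succAbove) := rfl
  rw [this, ex_up]

end Up

variable {V : Type} [Fintype V] {G : SimpleGraph V}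

lemma sum_sub {L : Set V} {z : V → ℝ} (hz : ∀ x, z x ≠ 0 → x ∈ L) :
    ∑ x : L, z x = ∑ x, z x := by
  refine Fintype.sum_of_injective (fun x : L => (x : V)) Subtype.val_injective _ _ ?_ fun _ => rfl
  intro x hx
  by_contra h
  exact hx ⟨⟨x, hz x h⟩, rfl⟩

/-- the local fundamental cycle is a cycle of the link -/
lemma lcycle_link {n : ℕ} {L : Set V} {z : (Fin n → V) → ℝ} (hz : IsCyc n G z)
    (hL : ∀ s, z s ≠ 0 → ∀ i, s i ∈ L) :
    LCycle (G.induce L) ∅ (fun s : Fin n → L => z fun i => s i) := by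
  refine { alt := ?_, supp := ?_, cyc := ?_ }
  · intro v i k hik
    exact hz.alt (fun i => v i) i k hik
  · intro v hv
    exact ⟨fun i k hik => hz.supp _ hv i k hik, fun i u hu => by simp at hu⟩
  · intro v i
    have h1 : ∀ x : L, z (fun j => (Function.update v i x j : L)) =
        z (Function.update (fun j => (v j : V)) i x) := by
      intro x
      congr 1
      funext j
      by_cases h : j = i
      · subst h; simp
      · simp [Function.update_of_ne h]
    rw [Finset.sum_congr rfl fun x _ => h1 x]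
    rw [sum_sub (L := L) (z := fun x => z (Function.update (fun j => (v j : V)) i x))]
    · exact hz.cyc _ i
    · intro x hx
      have := hL _ hx i
      simpa using this

/-- **Theorem.** -/
theorem link_chi {n : ℕ} {X : Set (W G)} (hX : Convex G X) {H : Subgroup (W G)}
    (hH : ∀ (h : H), ∀ x ∈ X, (h : W G) * x ∈ X) (hfin : (rc H '' X).Finite)
    {ω : W G → (Fin (n + 1) → V) → ℝ} (hω : Ori G (n + 1) X H ω) (hz : ZeroSV (n + 1) H)
    {v : W G} (hv : v ∈ X) (hv0 : ω v ≠ 0) (hS : HSphere (n + 1) (G.induce (lk G X v))) :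
    chiW (G.induce (lk G X v)) = 0 := by
  have hL : ∀ s, ω v s ≠ 0 → ∀ i, s i ∈ lk G X v := fun s hs => (hω.supp v s hs).2
  obtain ⟨s₀, hs₀⟩ : ∃ s, ω v s ≠ 0 := by
    by_contra hc
    push Not at hc
    exact hv0 (funext hc)
  by_contra hχ
  obtain ⟨a, ha, hc, hne⟩ := exists_labels hS hχ (lcycle_link (hω.cyc v) hL) (fun e => by
    have := congrFun e fun i => ⟨s₀ i, hL s₀ hs₀ i⟩
    exact hs₀ this)
  let _ : LinearOrder V := LinearOrder.lift' (Fintype.equivFin V) (Fintype.equivFin V).injective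
  have _ : Nonempty V := ⟨s₀ 0⟩
  have h1 := local_zero hX hH hfin hω hz hv (ex_alt (lk G X v) ha)
    fun s h1 h2 => ex_closed (lk G X v) hc h1 h2
  apply hne
  rw [← h1]
  refine Fintype.sum_of_injective (fun (s : Fin (n + 1) → lk G X v) i => (s i : V)) ?_ _ _ ?_ ?_
  · intro s t h
    funext i
    exact Subtype.ext (congrFun h i)
  · intro s hs
    by_cases h0 : ω v s = 0
    · rw [h0, zero_mul]
    · exact absurd ⟨fun i => ⟨s i, hL s h0 i⟩, rfl⟩ hs
  · intro s
    have h2 := ex_up (lk G X v) a (Sum.inl ∘ s)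
    have h3 : up (lk G X v) ∘ (Sum.inl ∘ s) = Sum.inl ∘ fun i => (s i : V) := rfl
    rw [h3] at h2
    rw [h2]

end Pool.Agent.K4H70.SC
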