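import Pool.Agent.K4H70.SC.Stk

/-!
The pairing of the bounded cocycle with the fundamental cycle.
-/

set_option autoImplicit false
set_option linter.unusedSectionVars false

open scoped Classical

namespace Pool.Agent.K4H70.SC

open Pool.Agent.W907.SG (W cox)
open Pool.Agent.Q134.SV
open Pool.Agent.K4H70.SV

variable {V : Type} [Fintype V] [LinearOrder V] {G : SimpleGraph V}

/-- the label has its vertices in `L` -/
def Lb (L : Set V) : V ⊕ V × V → Prop
  | Sum.inl x => x ∈ L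
  | Sum.inr p => p.1 ∈ L ∧ p.2 ∈ L

lemma Lb_jun {L : Set V} {x b : V} (hx : x ∈ L) (hb : b ∈ L) : Lb L (jun G x b) := by
  unfold jun
  split_ifs
  · exact hx
  · exact ⟨hx, hb⟩

variable [Nonempty V]

lemma lab_Lb {L : Set V} {Y : Set (Finset V)} (h : Ali G Y) (hne : Y.Nonempty)
    (hL : ∀ σ ∈ Y, ∀ x ∈ σ, x ∈ L) : Lb L (lab G Y) := by
  have hU : ∀ x ∈ un Y, x ∈ L := by
    intro x hx
    obtain ⟨σ, hσ, hxσ⟩ := mem_un.1 hx
    exact hL σ hσ x hxσ
  rcases exists_L h hne with ⟨x, b, h1⟩ | ⟨z, h1⟩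
  · rw [lab_LS h1]
    exact Lb_jun (hU _ h1.1.1) (hU _ (mem_co.1 h1.2.2.1).1)
  · rw [lab_LC h1]
    exact hU _ (mem_cen.1 h1.2.1).1

lemma theta_van {n : ℕ} {L : Set V} {a : (Fin n → V ⊕ V × V) → ℝ} (ha : Alt a)
    (hc : ∀ s : Fin (n + 1) → V ⊕ V × V, GT G s → (∀ i, Lb L (s i)) → cobd a s = 0) :
    Van G L (theta G a) := by
  intro σ hne hL hA
  have h1 : cobd (theta G a) σ = cobd (Bop (lab G) n a) σ := by
    refine cobd_congr fun i => ?_
    unfold theta
    exact if_pos fun k => hne _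
  rw [h1, cobd_Bop]
  refine Bop_vanish (lab G) (P := Ali G) (R := RL G) (fun _ _ h => h.symm)
    (fun X X' h h' _ => h.mono h') (fun X X' h h' h'' => lab_compat h h' h'') _ _ _ hA
    fun y hy hy' => ?_
  by_cases hinj : ∃ i j, i ≠ j ∧ y i = y j
  · obtain ⟨i, j, hij, he⟩ := hinj
    exact ha.cobd.self y hij he
  · push Not at hinj
    refine hc y ⟨fun i => ?_, fun i j hij => (hy i j hij).resolve_left (hinj i j hij)⟩ fun i => ?_
    · obtain ⟨X', h1, h2, h3⟩ := hy' i
      rw [h3]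
      exact lab_va (hA.mono h1) h2
    · obtain ⟨X', h1, h2, h3⟩ := hy' i
      rw [h3]
      refine lab_Lb (hA.mono h1) h2 fun τ hτ x hx => ?_
      obtain ⟨k, rfl⟩ := h1 hτ
      exact hL k x hx

section

variable {n : ℕ} {a : (Fin (n + 1) → V ⊕ V × V) → ℝ} (ha : Alt a) {X : Set (W G)}
  (hX : Convex G X) {v : W G} (hv : v ∈ X)
  (hc : ∀ s : Fin (n + 2) → V ⊕ V × V, GT G s → (∀ i, Lb (lk G X v) (s i)) → cobd a s = 0)
  {s : Fin (n + 1) → V} (hs : ∀ i j, i ≠ j → G.Adj (s i) (s j))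

include ha hX hv hc hs

lemma TT_xx_zero {x : W G} (hx : x ∈ X) (hl : ∀ i, s i ∈ lk G X x)
    (hne : ∀ j, v ≠ x * xx G s j) : TT G (theta G a) v (fun j => x * xx G s j) = 0 := by
  have hxx : ∀ j, x * xx G s j ∈ X := fun j => hX.cube hx hs hl j
  have hnv : ∀ j, (D G (v⁻¹ * (x * xx G s j))).Nonempty := by
    intro j
    refine D_nonempty fun h => hne j ?_
    exact (inv_mul_eq_one.1 h)
  refine theta_van ha hc _ hnv (fun j t ht => hX.step hv (hxx j) ht) ?_
  have hT := range_clique ha hs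
  have hass : ∀ j, v⁻¹ * (x * xx G s j) = v⁻¹ * x * xx G s j := fun j => by rw [mul_assoc]
  simp only [hass] at hnv ⊢
  rcases coset hT _ (v⁻¹ * x) rfl with ⟨u, hu⟩ | h
  · have hC : Cli G (Set.range fun j => D G (v⁻¹ * x * xx G s j)) := by
      rintro _ ⟨i, rfl⟩ y hy w hw hyw
      exact D_clique hy hw hyw
    refine ⟨hC, Or.inr ?_⟩
    rintro _ ⟨j, rfl⟩
    have h1 : u ∈ D G (v⁻¹ * x * xx G s j) := hu _ (xx_mem j)
    have h2 : D G (v⁻¹ * x * xx G s j) ∈ Set.range fun j => D G (v⁻¹ * x * xx G s j) := ⟨j, rfl⟩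
    refine ⟨u, h1, mem_cen_of_common hC (mem_un_of_mem h2 h1) ?_⟩
    rintro _ ⟨k, rfl⟩
    exact hu _ (xx_mem k)
  · refine (lab_clique (G := G) (X := Set.range fun j => D G (v⁻¹ * x * xx G s j)) ?_ ?_
      ⟨_, (0 : Fin (n + 2)), rfl⟩).1
    · intro y hy w hw hyw
      obtain ⟨_, ⟨i, rfl⟩, hy⟩ := mem_un.1 hy
      obtain ⟨_, ⟨j, rfl⟩, hw⟩ := mem_un.1 hw
      exact hT y (D_WT ((WT G _).mul_mem h (xx_mem i)) hy) w
        (D_WT ((WT G _).mul_mem h (xx_mem j)) hw) hyw
    · rintro _ ⟨j, rfl⟩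
      exact hnv j

end

lemma TT_xx_self {n : ℕ} {a : (Fin (n + 1) → V ⊕ V × V) → ℝ} (ha : Alt a)
    {s : Fin (n + 1) → V} (hs : ∀ i j, i ≠ j → G.Adj (s i) (s j)) (x : W G) (j : Fin (n + 2)) :
    (-1 : ℝ) ^ (j : ℕ) * TT G (theta G a) (x * xx G s j) (fun i => x * xx G s i) =
      if ok s j then a (Sum.inl ∘ s) else 0 := by
  rw [TT_mul, ← eps_xx (G := G) (s := s) j]
  exact tter_xx ha hs j

lemma Ori.flips {n : ℕ} {X : Set (W G)} {H : Subgroup (W G)} {ω : W G → (Fin n → V) → ℝ}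
    (hω : Ori G n X H ω) (x : W G) (s : Fin n → V) (j : Fin (n + 1)) :
    ω (x * xx G s j) s = (-1) ^ (j : ℕ) * ω x s := by
  refine Fin.induction ?_ (fun i hi => ?_) j
  · rw [xx_zero, mul_one]; simp
  · rw [xx_succ, ← mul_assoc, hω.flip, hi, Fin.val_succ, Fin.val_castSucc, pow_succ]
    ring

section

variable {n : ℕ} {a : (Fin (n + 1) → V ⊕ V × V) → ℝ} (ha : Alt a) {X : Set (W G)}
  (hX : Convex G X) {v : W G} (hv : v ∈ X)
  (hc : ∀ s : Fin (n + 2) → V ⊕ V × V, GT G s → (∀ i, Lb (lk G X v) (s i)) → cobd a s = 0)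
  {H : Subgroup (W G)} {ω : W G → (Fin (n + 1) → V) → ℝ} (hω : Ori G (n + 1) X H ω)

include ha hX hv hc hω

lemma F_supp (s : Fin (n + 1) → V) :
    (Function.support fun x => ω x s * TT G (theta G a) v (fun j => x * xx G s j)) ⊆
      ((Finset.univ.image fun j : Fin (n + 2) => v * (xx G s j)⁻¹ : Finset (W G)) : Set (W G)) := by
  intro x hx
  have h0 : ω x s ≠ 0 := left_ne_zero_of_mul hx
  have h1 : TT G (theta G a) v (fun j => x * xx G s j) ≠ 0 := right_ne_zero_of_mul hx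
  by_contra h2
  apply h1
  obtain ⟨h3, h4⟩ := hω.supp x s h0
  refine TT_xx_zero ha hX hv hc ((hω.cyc x).supp s h0) h3 h4 fun j e => h2 ?_
  simp only [Finset.coe_image, Finset.coe_univ, Set.image_univ, Set.mem_range]
  exact ⟨j, by rw [e]; group⟩

lemma F_sum (s : Fin (n + 1) → V) :
    ∑ᶠ x, ω x s * TT G (theta G a) v (fun j => x * xx G s j) =
      ω v s * (kap s * a (Sum.inl ∘ s)) := by
  by_cases h0 : ∀ x, ω x s = 0
  · rw [h0 v, zero_mul]
    simp [h0]
  push Not at h0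
  obtain ⟨x₀, hx₀⟩ := h0
  have hs := (hω.cyc x₀).supp s hx₀
  rw [finsum_eq_sum_of_support_subset _ (F_supp ha hX hv hc hω s), Finset.sum_image]
  · have h1 : ∀ j : Fin (n + 2), ω (v * (xx G s j)⁻¹) s *
        TT G (theta G a) v (fun i => v * (xx G s j)⁻¹ * xx G s i) =
        ω v s * if ok s j then a (Sum.inl ∘ s) else 0 := by
      intro j
      have h2 := TT_xx_self ha hs (v * (xx G s j)⁻¹) j
      have h3 := hω.flips (v * (xx G s j)⁻¹) s j
      rw [inv_mul_cancel_right] at h2 h3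
      have h4 : ((-1 : ℝ) ^ (j : ℕ)) * (-1) ^ (j : ℕ) = 1 := by rw [← mul_pow]; simp
      rw [← h2, h3]
      linear_combination (- ω (v * (xx G s j)⁻¹) s *
        TT G (theta G a) v fun i => v * (xx G s j)⁻¹ * xx G s i) * h4
    rw [Finset.sum_congr rfl fun j _ => h1 j, ← Finset.mul_sum, ← Finset.sum_filter,
      Finset.sum_const, nsmul_eq_mul]
    rfl
  · intro i _ j _ hij
    simp only [mul_right_inj, inv_inj] at hij
    exact xx_inj hs hij

/-- the value of the fundamental cycle on the bounded cocycle -/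
theorem PP_cT (hH : ∀ (h : H), ∀ x ∈ X, (h : W G) * x ∈ X) (hfin : (rc H '' X).Finite) :
    PP H ω (cT X H (theta G a) v) =
      ∑ s : Fin (n + 1) → V, ω v s * (kap s * a (Sum.inl ∘ s)) := by
  have h1 : ∀ (x : W G) (s : Fin (n + 1) → V),
      ω x s * cT X H (theta G a) v (fun j => x * xx G s j) =
        ∑ᶠ h : H, (fun y => ω y s * TT G (theta G a) v (fun j => y * xx G s j))
          ((h : W G)⁻¹ * x) := by
    intro x s
    by_cases h0 : ω x s = 0
    · have : ∀ h : H, ω ((h : W G)⁻¹ * x) s = 0 := by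
        intro h
        have := hω.inv h⁻¹ x
        rw [Subgroup.coe_inv] at this
        rw [this, h0]
      rw [h0, zero_mul]
      simp [this]
    · obtain ⟨h3, h4⟩ := hω.supp x s h0
      have hs := (hω.cyc x).supp s h0
      have h5 : cT X H (theta G a) v (fun j => x * xx G s j) =
          cX H (theta G a) v (fun j => x * xx G s j) := by
        unfold cT
        congr 1
        funext j
        exact RR_id (hX.cube h3 hs h4 j)
      rw [h5]
      unfold cX
      rw [← smul_eq_mul, smul_finsum]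
      congr 1
      funext h
      simp only [smul_eq_mul]
      have h6 : ω ((h : W G)⁻¹ * x) = ω x := by
        have := hω.inv h⁻¹ x
        rwa [Subgroup.coe_inv] at this
      rw [h6, TT_mul']
      simp only [mul_assoc]
  unfold PP
  simp only [h1]
  rw [II_sum]
  · refine Finset.sum_congr rfl fun s _ => ?_
    rw [← F_sum ha hX hv hc hω s]
    exact II_unfold ((Finset.finite_toSet _).subset (F_supp ha hX hv hc hω s))
  · intro s
    refine hω.fs hfin fun x hx => ⟨s, fun h0 => hx ?_⟩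
    rw [← h1, h0, zero_mul]

end

/-- the sum over the pieces -/
lemma sum_kap_alt {n : ℕ} {z a : (Fin (n + 1) → V) → ℝ} (hz : IsCyc (n + 1) G z)
    (alt : ∀ (v : Fin (n + 1) → V) (i j : Fin (n + 1)), i ≠ j → a (v ∘ Equiv.swap i j) = - a v) :
    ((n + 1).factorial : ℝ) * ∑ s : Fin (n + 1) → V, z s * (kap s * a s) =
      Kn (n + 1) * ∑ s : Fin (n + 1) → V, z s * a s := by
  have hsym : ∀ (π : Equiv.Perm (Fin (n + 1))) (s : Fin (n + 1) → V),
      z (s ∘ π) * a (s ∘ π) = z s * a s := by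
    intro π s
    refine sgn_perm (F := fun s => z s * a s) ?_ π s
    intro v i j hij
    simp only [hz.alt v i j hij, alt v i j hij]
    ring
  have h2 : ∀ π : Equiv.Perm (Fin (n + 1)), ∑ s : Fin (n + 1) → V, z s * (kap s * a s) =
      ∑ s : Fin (n + 1) → V, z s * a s * kap (s ∘ π) := by
    intro π
    rw [← Equiv.sum_comp (Equiv.arrowCongr π.symm (Equiv.refl V))]
    refine Finset.sum_congr rfl fun s _ => ?_
    have : (Equiv.arrowCongr π.symm (Equiv.refl V)) s = s ∘ π := by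
      funext l
      simp [Equiv.arrowCongr]
    rw [this, ← hsym π s]
    ring
  have h3 : ((n + 1).factorial : ℝ) * ∑ s : Fin (n + 1) → V, z s * (kap s * a s) =
      ∑ π : Equiv.Perm (Fin (n + 1)), ∑ s : Fin (n + 1) → V, z s * a s * kap (s ∘ π) := by
    rw [← Finset.sum_congr rfl fun π _ => h2 π, Finset.sum_const, nsmul_eq_mul, Finset.card_univ,
      Fintype.card_perm, Fintype.card_fin]
  rw [h3, Finset.sum_comm, Finset.mul_sum]
  refine Finset.sum_congr rfl fun s _ => ?_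
  rw [← Finset.mul_sum]
  by_cases h0 : z s = 0
  · rw [h0]; ring
  · have hinj : Function.Injective s := by
      intro i j hij
      by_contra hne
      exact (hz.supp s h0 i j hne).ne hij
    rw [← Nat.cast_sum, sum_kap hinj]
    ring

/-- **The local criterion**: if simplicial volume vanishes, then the local fundamental cycle pairs
trivially with the cochains of labels which are closed. -/
theorem local_zero {n : ℕ} {X : Set (W G)} (hX : Convex G X) {H : Subgroup (W G)}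
    (hH : ∀ (h : H), ∀ x ∈ X, (h : W G) * x ∈ X) (hfin : (rc H '' X).Finite)
    {ω : W G → (Fin (n + 1) → V) → ℝ} (hω : Ori G (n + 1) X H ω) (hz : ZeroSV (n + 1) H)
    {v : W G} (hv : v ∈ X) {a : (Fin (n + 1) → V ⊕ V × V) → ℝ} (ha : Alt a)
    (hc : ∀ s : Fin (n + 2) → V ⊕ V × V, GT G s → (∀ i, Lb (lk G X v) (s i)) → cobd a s = 0) :
    ∑ s : Fin (n + 1) → V, ω v s * a (Sum.inl ∘ s) = 0 := by
  obtain ⟨b, hb, hbc⟩ := cT_cobd hX hH hv (theta_van ha hc) hz
  have h1 := PP_cobd hω hfin hb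
  have h2 : cobd b = cT X H (theta G a) v := funext hbc
  rw [h2, PP_cT ha hX hv hc hω hH hfin] at h1
  have h3 := sum_kap_alt (hω.cyc v) (a := fun s => a (Sum.inl ∘ s))
    fun u i j hij => ha (Sum.inl ∘ u) i j hij
  rw [h1, mul_zero] at h3
  rcases mul_eq_zero.1 h3.symm with h4 | h4
  · have := Kn_pos (n + 1)
    rw [Nat.cast_eq_zero] at h4
    omega
  · exact h4

end Pool.Agent.K4H70.SC
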